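import Pool.Agent.Helper19.HV.Curve
import Pool.Agent.Helper91.PL.A1

set_option autoImplicit false

namespace Pool.Agent.Helper19.HV

noncomputable section

open PL

private lemma ex3_span {F N : Type} [Field F] [AddCommGroup N] [Module ℚ N]
    (f : V F →ₗ[ℚ] N) (h : ∀ c : F, f (lg c) = 0) : f = 0 := by
  apply LinearMap.ext
  intro v
  rw [LinearMap.zero_apply]
  induction v using TensorProduct.induction_on with
  | zero => exact map_zero f
  | add x y hx hy => rw [map_add, hx, hy, add_zero]
  | tmul q u =>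
    have hu : (q ⊗ₜ[ℤ] u : V F) = q • lg ((Additive.toMul u : Fˣ) : F) := by
      rw [lg, dif_neg (Units.ne_zero _), TensorProduct.smul_tmul', smul_eq_mul, mul_one]
      congr 1
      apply Additive.toMul.injective
      rw [toMul_ofMul]
      exact (Units.mk0_val _ _).symm
    rw [hu, map_smul, h, smul_zero]

theorem mEX3 {F N : Type} [Field F] [AddCommGroup N] [Module ℚ N]
    {cV : V F →ₗ[ℚ] V (RatFunc F)} {lc : V (RatFunc F) →ₗ[ℚ] V F}
    {od : V (RatFunc F) →ₗ[ℚ] (F →₀ ℚ)} (hs : Spl cV lc od)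
    (hF2 : ∀ {G N : Type} [Field G] [AddCommGroup N] [Module ℚ N]
      (A : V G →ₗ[ℚ] V G →ₗ[ℚ] N), Al2 A → Kil 2 (sy2 A))
    (hEX2 : ∀ {N : Type} [AddCommGroup N] [Module ℚ N] (ψ : P1 (RatFunc F) → N), Kil 2 ψ →
      (∀ c, ψ (cst c) = 0) → ∃ A : V (RatFunc F) →ₗ[ℚ] V (RatFunc F) →ₗ[ℚ] N, Al2 A ∧
        (∀ (c : F) v, A (lg (RatFunc.C c)) v = 0) ∧ ∀ x, ψ x = A (cl1 x) (cl x))
    (hEXS : ∀ ψ : P1 (RatFunc F) → N, Kil 3 ψ → (∀ c, ψ (cst c) = 0) →
      ∃ B : P1 (RatFunc F) → (V (RatFunc F) →ₗ[ℚ] N), Kil 2 B ∧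
        (∀ c, B (cst c) = 0) ∧ ∀ x, ψ x = B x (cl x))
    (ψ : P1 (RatFunc F) → N) (h : Kil 3 ψ) (hc : ∀ c, ψ (cst c) = 0) :
    ∃ M : V (RatFunc F) →ₗ[ℚ] V (RatFunc F) →ₗ[ℚ] V (RatFunc F) →ₗ[ℚ] N,
      (∀ v w, M v v w = 0) ∧ (∀ (c : F) v w, M (lg (RatFunc.C c)) v w = 0) ∧
      (∀ (c : F) v w, M v w (lg (RatFunc.C c)) = 0) ∧ ∀ x, ψ x = M (cl1 x) (cl x) (cl x) := by
  obtain ⟨B, hB2, hBc, hBψ⟩ := hEXS ψ h hc
  obtain ⟨A, hA, hAc, hAB⟩ := hEX2 B hB2 hBc
  have hanti : ∀ a b, A a b = - A b a := by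
    intro a b
    have h1 := hA (a + b)
    simp only [map_add, LinearMap.add_apply, hA a, hA b, zero_add, add_zero] at h1
    first
      | exact eq_neg_of_add_eq_zero_left h1
      | exact eq_neg_of_add_eq_zero_right h1
  have hanti' : ∀ a b c, A a b c = - A b a c := by
    intro a b c
    rw [hanti a b, LinearMap.neg_apply]
  -- constants
  have hA1 : ∀ (u : V F) v, A (cV u) v = 0 := by
    intro u v
    have := ex3_span ((A.flip v).comp cV) (by
      intro c
      rw [LinearMap.comp_apply, LinearMap.flip_apply, hs.cV_lg, hAc])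
    have h2 := LinearMap.congr_fun this u
    rwa [LinearMap.comp_apply, LinearMap.flip_apply, LinearMap.zero_apply] at h2
  have hA2 : ∀ (u : V F) v, A v (cV u) = 0 := by
    intro u v
    rw [hanti, hA1, neg_zero]
  have hlc : ∀ u, lc (cV u) = u := by
    intro u
    have := ex3_span (lc.comp cV - LinearMap.id) (by
      intro c
      rw [LinearMap.sub_apply, LinearMap.comp_apply, LinearMap.id_apply, hs.cV_lg, hs.lc_C,
        sub_self])
    have h2 := LinearMap.congr_fun this u
    rw [LinearMap.sub_apply, LinearMap.comp_apply, LinearMap.id_apply, LinearMap.zero_apply] at h2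
    exact sub_eq_zero.mp h2
  let κ : V (RatFunc F) →ₗ[ℚ] V (RatFunc F) := cV.comp lc
  have hκ : ∀ v, κ v = cV (lc v) := fun _ => rfl
  let A2 : V (RatFunc F) →ₗ[ℚ] V (RatFunc F) →ₗ[ℚ] V (RatFunc F) →ₗ[ℚ] N :=
    LinearMap.mk₂ ℚ (fun a b => A a b - ((A a b).comp κ + (A b).flip (κ a) +
      (A.flip a).flip (κ b)))
      (by
        intro a a' b
        apply LinearMap.ext
        intro c
        simp only [LinearMap.sub_apply, LinearMap.add_apply, LinearMap.comp_apply,
          LinearMap.flip_apply, map_add]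
        abel)
      (by
        intro r a b
        apply LinearMap.ext
        intro c
        simp only [LinearMap.sub_apply, LinearMap.add_apply, LinearMap.comp_apply,
          LinearMap.flip_apply, map_smul, LinearMap.smul_apply, smul_sub, smul_add])
      (by
        intro a b b'
        apply LinearMap.ext
        intro c
        simp only [LinearMap.sub_apply, LinearMap.add_apply, LinearMap.comp_apply,
          LinearMap.flip_apply, map_add]
        abel)
      (by
        intro r a b
        apply LinearMap.ext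
        intro c
        simp only [LinearMap.sub_apply, LinearMap.add_apply, LinearMap.comp_apply,
          LinearMap.flip_apply, map_smul, LinearMap.smul_apply, smul_sub, smul_add])
  have hA2v : ∀ a b c, A2 a b c = A a b c - (A a b (κ c) + A b c (κ a) + A c a (κ b)) :=
    fun _ _ _ => rfl
  have hAl : Al2 A2 := by
    intro v
    apply LinearMap.ext
    intro c
    rw [hA2v, hA v, hanti' c v]
    simp only [LinearMap.zero_apply]
    abel
  have hK2 : Kil 2 (sy2 A2) := hF2 A2 hAl
  let Eo : (F →₀ ℚ) →ₗ[ℚ] V (RatFunc F) := Finsupp.linearCombination ℚ E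
  let B2 : P1 (RatFunc F) → ((F →₀ ℚ) →ₗ[ℚ] N) := fun x => (sy2 A2 x).comp Eo
  have hB2k : Kil 2 B2 := by
    intro α hα
    have h1 := hK2 α hα
    have h2 : Finsupp.linearCombination ℚ B2 α =
        (Finsupp.linearCombination ℚ (sy2 A2) α).comp Eo := by
      rw [Finsupp.linearCombination_apply, Finsupp.linearCombination_apply, Finsupp.sum,
        Finsupp.sum]
      apply LinearMap.ext
      intro v
      simp only [LinearMap.comp_apply, LinearMap.sum_apply, LinearMap.smul_apply, B2]
    rw [h2, h1, LinearMap.zero_comp]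
  have hB2c : ∀ c, B2 (cst c) = 0 := by
    intro c
    have h0 : sy2 A2 (cst c) = 0 := by
      rcases c with _ | c
      · change A2 (cl1 none) (cl none) = 0
        change A2 0 0 = 0
        rw [map_zero]
      · have e1 : cl1 (cst (some c)) = cV (lg (1 - c)) := by
          change lg (1 - RatFunc.C c) = _
          rw [hs.cV_lg, map_sub, map_one]
        have e2 : cl (cst (some c)) = cV (lg c) := by
          change lg (RatFunc.C c) = _
          rw [hs.cV_lg]
        rw [sy2, e1, e2]
        apply LinearMap.ext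
        intro d
        rw [hA2v, hA1, hA1, hA2]
        simp only [LinearMap.zero_apply, add_zero, sub_zero]
    change (sy2 A2 (cst c)).comp Eo = 0
    rw [h0, LinearMap.zero_comp]
  obtain ⟨A', hA', hA'c, hA'B⟩ := hEX2 B2 hB2k hB2c
  refine ⟨A'.compr₂ (LinearMap.lcomp ℚ N od), ?_, ?_, ?_, ?_⟩
  · intro v w
    change A' v v (od w) = 0
    rw [hA' v, LinearMap.zero_apply]
  · intro c v w
    change A' (lg (RatFunc.C c)) v (od w) = 0
    rw [hA'c, LinearMap.zero_apply]
  · intro c v w
    change A' v w (od (lg (RatFunc.C c))) = 0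
    rw [hs.od_C, map_zero]
  · intro x
    change ψ x = A' (cl1 x) (cl x) (od (cl x))
    have e1 : A' (cl1 x) (cl x) = B2 x := (hA'B x).symm
    rw [e1]
    change ψ x = A2 (cl1 x) (cl x) (Eo (od (cl x)))
    rw [hBψ x, hAB x]
    generalize cl1 x = a
    generalize cl x = b
    have e2 : A a b b = A2 a b b := by
      rw [hA2v, hA b, LinearMap.zero_apply, hanti' b a]
      abel
    have e3 : A2 a b (κ b) = 0 := by
      have h3 : κ (κ b) = κ b := by
        rw [hκ, hκ, hlc]
      rw [hA2v, h3, hκ b, hA2, hA1]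
      simp only [LinearMap.zero_apply, add_zero, sub_self]
    have e4 : A2 a b b = A2 a b (κ b) + A2 a b (Eo (od b)) := by
      rw [← map_add]
      congr 1
      exact hs.dec b
    rw [e2, e4, e3, zero_add]

end

end Pool.Agent.Helper19.HV
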