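import Pool.Agent.Helper19.HV.XS

/-!
# Project HV, module MPS: the form of a functional
-/

set_option autoImplicit false

namespace Pool.Agent.Helper19.HV

noncomputable section

open PL

theorem mMPS {F : Type} [Field F] {cV : V F →ₗ[ℚ] V (RatFunc F)}
    {lc : V (RatFunc F) →ₗ[ℚ] V F} {od : V (RatFunc F) →ₗ[ℚ] (F →₀ ℚ)} (hs : Spl cV lc od)
    (hEX3 : ∀ {N : Type} [AddCommGroup N] [Module ℚ N] (ψ : P1 (RatFunc F) → N), Kil 3 ψ →
      (∀ c, ψ (cst c) = 0) →
      ∃ M : V (RatFunc F) →ₗ[ℚ] V (RatFunc F) →ₗ[ℚ] V (RatFunc F) →ₗ[ℚ] N,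
        (∀ v w, M v v w = 0) ∧ (∀ (c : F) v w, M (lg (RatFunc.C c)) v w = 0) ∧
        (∀ (c : F) v w, M v w (lg (RatFunc.C c)) = 0) ∧ ∀ x, ψ x = M (cl1 x) (cl x) (cl x))
    {Ψ : P1 (RatFunc F) → (V (RatFunc F) →ₗ[ℚ] ℚ)} (hΨ : Ps Ψ)
    (hu : ∀ x (u : F), Ψ x (lg (RatFunc.C u)) = 0) : ∃ M : F4 F, Fm Ψ M := by
  obtain ⟨M, h1, h2, h3, h4⟩ := hEX3 Ψ hΨ.kil hΨ.cst
  obtain ⟨M', hM'⟩ := mk4 (fun a b c k => M a b c (Finsupp.linearCombination ℚ E (od k)))
    (fun _ _ _ => ⟨fun _ _ => by simp, fun _ _ => by simp⟩)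
    (fun _ _ _ => ⟨fun _ _ => by simp, fun _ _ => by simp⟩)
    (fun _ _ _ => ⟨fun _ _ => by simp, fun _ _ => by simp⟩)
    (fun _ _ _ => ⟨fun _ _ => by simp, fun _ _ => by simp⟩)
  have hsw : ∀ v w z, M v w z = - M w v z := by
    intro v w z
    have h5 := h1 (v + w) z
    simp only [map_add, LinearMap.add_apply, h1, zero_add, add_zero] at h5
    exact eq_neg_of_add_eq_zero_right h5
  refine ⟨M', ⟨?_, ⟨?_, ?_, ?_, ?_⟩, ?_⟩⟩
  · intro v w z
    rw [hM', h1]
    rfl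
  · intro c v w z
    rw [hM', h2]
    rfl
  · intro c v w z
    rw [hM', hsw, h2, neg_zero]
    rfl
  · intro c v w z
    rw [hM', h3]
    rfl
  · intro c v w z
    rw [hM', hs.od_C, map_zero, map_zero]
  · intro x k
    rw [hM', ← h4]
    have h5 : ∀ v : V F, Ψ x (cV v) = 0 := by
      intro v
      have hv : v ∈ Submodule.span ℚ (Set.range (lg : F → V F)) := by
        rw [span_lg]
        exact Submodule.mem_top
      induction hv using Submodule.span_induction with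
      | mem y hy =>
        obtain ⟨u, rfl⟩ := hy
        rw [hs.cV_lg, hu]
      | zero => rw [map_zero, map_zero]
      | add y z _ _ hy hz => rw [map_add, map_add, hy, hz, add_zero]
      | smul q y _ hy => rw [map_smul, map_smul, hy, smul_zero]
    have h6 := congrArg (Ψ x) (hs.dec k)
    rw [map_add, h5, zero_add] at h6
    exact h6

end

end Pool.Agent.Helper19.HV
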